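import Mathlib
import Pool.Agent.H88.Pex4
import Pool.Agent.H88.PexDefs

open Pool.Agent.H88.Pex

theorem Pool.Agent.Results.MP_d7144b_an.Infinite.result (𝕜 : Type) [RCLike 𝕜] (n : ℕ)
    (hn : 2 ≤ n) : supQ 𝕜 n = ⊤ :=
  supQ_top hn
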